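import Pool.Agent.Helper66.E7.Defs

/-!
# Project 7E (MP_a499ba_nt), block G: non-resonant averages are small
-/

set_option autoImplicit false

open Complex Filter Topology MeasureTheory Set

namespace Pool.Agent.E7.GG

/-- the transform of the kernel -/
noncomputable def Kh (R ξ : ℝ) : ℂ :=
  ∫ τ in (0:ℝ)..R, ((kap R τ : ℝ) : ℂ) * cexp (-((2 * Real.pi * ξ * τ : ℝ) : ℂ) * I)

/-- its derivative -/
noncomputable def Kd (R ξ : ℝ) : ℂ :=
  ∫ τ in (0:ℝ)..R, ((kap R τ : ℝ) : ℂ) *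
    (cexp (-((2 * Real.pi * ξ * τ : ℝ) : ℂ) * I) * (-((2 * Real.pi * τ : ℝ) : ℂ) * I))

theorem g_kap_cont (R : ℝ) : Continuous (kap R) := by
  unfold kap
  fun_prop

theorem g_kap_nonneg {R τ : ℝ} (hR : 0 < R) (h0 : 0 ≤ τ) (h1 : τ ≤ R) : 0 ≤ kap R τ := by
  unfold kap
  apply div_nonneg
  · exact mul_nonneg (by linarith) (by linarith)
  · positivity

theorem g_kap_int {R : ℝ} (hR : 0 < R) : ∫ τ in (0:ℝ)..R, kap R τ = 1 := by
  have h : ∀ τ ∈ uIcc (0:ℝ) R,
      HasDerivAt (fun τ : ℝ => (3 * R * τ ^ 2 - 2 * τ ^ 3) / R ^ 3) (kap R τ) τ := by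
    intro τ _
    have h1 := (((hasDerivAt_pow 2 τ).const_mul (3 * R)).sub
      ((hasDerivAt_pow 3 τ).const_mul 2)).div_const (R ^ 3)
    refine h1.congr_deriv ?_
    unfold kap
    push_cast
    ring
  rw [intervalIntegral.integral_eq_sub_of_hasDerivAt h ((g_kap_cont R).intervalIntegrable _ _)]
  field_simp
  ring

theorem g_ne (x : ℝ) : ‖cexp (-((x : ℝ) : ℂ) * I)‖ = 1 := by
  have := Complex.norm_exp_ofReal_mul_I (-x)
  rwa [Complex.ofReal_neg] at this

theorem g_Kh_le_one {R : ℝ} (hR : 0 < R) (ξ : ℝ) : ‖Kh R ξ‖ ≤ 1 := by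
  unfold Kh
  refine (intervalIntegral.norm_integral_le_integral_norm hR.le).trans ?_
  rw [← g_kap_int hR]
  apply le_of_eq
  apply intervalIntegral.integral_congr
  intro τ hτ
  rw [uIcc_of_le hR.le] at hτ
  simp only [norm_mul, g_ne, mul_one, Complex.norm_real, Real.norm_eq_abs]
  exact abs_of_nonneg (g_kap_nonneg hR hτ.1 hτ.2)

theorem g_bd {R : ℝ} (hR : 0 < R) (ξ τ : ℝ) (h0 : 0 ≤ τ) (h1 : τ ≤ R) :
    ‖((kap R τ : ℝ) : ℂ) *
    (cexp (-((2 * Real.pi * ξ * τ : ℝ) : ℂ) * I) * (-((2 * Real.pi * τ : ℝ) : ℂ) * I))‖ ≤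
    kap R τ * (2 * Real.pi * R) := by
  have hk := g_kap_nonneg hR h0 h1
  rw [norm_mul, norm_mul, g_ne, norm_mul, norm_neg, Complex.norm_real, Complex.norm_real,
    Complex.norm_I, Real.norm_eq_abs, Real.norm_eq_abs, abs_of_nonneg hk, mul_one, one_mul,
    abs_of_nonneg (by positivity)]
  exact mul_le_mul_of_nonneg_left (mul_le_mul_of_nonneg_left h1 (by positivity)) hk

theorem g_Kh_deriv {R : ℝ} (hR : 0 < R) (ξ : ℝ) : HasDerivAt (Kh R) (Kd R ξ) ξ := by
  have hk := g_kap_cont R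
  have hd := intervalIntegral.hasDerivAt_integral_of_dominated_loc_of_deriv_le (μ := volume)
    (a := 0) (b := R)
    (F := fun (ξ τ : ℝ) => ((kap R τ : ℝ) : ℂ) * cexp (-((2 * Real.pi * ξ * τ : ℝ) : ℂ) * I))
    (F' := fun (ξ τ : ℝ) => ((kap R τ : ℝ) : ℂ) *
      (cexp (-((2 * Real.pi * ξ * τ : ℝ) : ℂ) * I) * (-((2 * Real.pi * τ : ℝ) : ℂ) * I)))
    (x₀ := ξ) (s := univ) (bound := fun τ => kap R τ * (2 * Real.pi * R)) univ_mem
    (Filter.Eventually.of_forall (fun x => Continuous.aestronglyMeasurable (by fun_prop)))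
    (Continuous.intervalIntegrable (by fun_prop) _ _)
    (Continuous.aestronglyMeasurable (by fun_prop))
    (Filter.Eventually.of_forall (fun τ hτ x _ => by
      rw [uIoc_of_le hR.le] at hτ
      exact g_bd hR x τ hτ.1.le hτ.2))
    (Continuous.intervalIntegrable (by fun_prop) _ _)
    (Filter.Eventually.of_forall (fun τ _ x _ => by
      have h1 : HasDerivAt (fun x : ℝ => -((2 * Real.pi * x * τ : ℝ) : ℂ) * I)
          (-((2 * Real.pi * τ : ℝ) : ℂ) * I) x := by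
        have h2 : HasDerivAt (fun x : ℝ => 2 * Real.pi * x * τ) (2 * Real.pi * τ) x := by
          have h3 := ((hasDerivAt_id x).const_mul (2 * Real.pi)).mul_const τ
          simpa using h3
        exact (h2.ofReal_comp.neg).mul_const I
      exact (h1.cexp).const_mul _))
  exact hd.2

theorem g_Kd_le {R : ℝ} (hR : 0 < R) (ξ : ℝ) : ‖Kd R ξ‖ ≤ 2 * Real.pi * R := by
  have hk := g_kap_cont R
  have h1 : ‖Kd R ξ‖ ≤ ∫ τ in (0:ℝ)..R, kap R τ * (2 * Real.pi * R) := by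
    unfold Kd
    apply intervalIntegral.norm_integral_le_of_norm_le hR.le
    · exact Filter.Eventually.of_forall (fun τ hτ => g_bd hR ξ τ hτ.1.le hτ.2)
    · exact Continuous.intervalIntegrable (by fun_prop) _ _
  rw [intervalIntegral.integral_mul_const, g_kap_int hR, one_mul] at h1
  exact h1

theorem g_Kh_formula {R ξ : ℝ} (hR : 0 < R) (hξ : ξ ≠ 0) (μ : ℂ)
    (hμ : μ = -((2 * Real.pi * ξ : ℝ) : ℂ) * I) :
    Kh R ξ = 6 * (cexp (μ * R) + 1) / (R ^ 2 * μ ^ 2) - 12 * (cexp (μ * R) - 1) / (R ^ 3 * μ ^ 3) := by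
  have hμ0 : μ ≠ 0 := by
    rw [hμ]
    have : (2 * Real.pi * ξ : ℝ) ≠ 0 := by
      have := Real.pi_pos.ne'
      positivity
    exact mul_ne_zero (neg_ne_zero.mpr (Complex.ofReal_ne_zero.mpr this)) I_ne_zero
  have hRc : (R : ℂ) ≠ 0 := Complex.ofReal_ne_zero.mpr hR.ne'
  have hder : ∀ τ ∈ uIcc (0:ℝ) R, HasDerivAt (fun τ : ℝ => (fun z : ℂ => cexp (μ * z) *
      (6 * z * (R - z) / R ^ 3 / μ - 6 * (R - 2 * z) / R ^ 3 / μ ^ 2 - 12 / R ^ 3 / μ ^ 3)) (τ : ℂ))
      (((kap R τ : ℝ) : ℂ) * cexp (-((2 * Real.pi * ξ * τ : ℝ) : ℂ) * I)) τ := by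
    intro τ _
    refine HasDerivAt.comp_ofReal (e := fun z : ℂ => cexp (μ * z) *
      (6 * z * (R - z) / R ^ 3 / μ - 6 * (R - 2 * z) / R ^ 3 / μ ^ 2 - 12 / R ^ 3 / μ ^ 3)) ?_
    have h1 : HasDerivAt (fun z : ℂ => cexp (μ * z)) (cexp (μ * τ) * μ) (τ : ℂ) := by
      have := ((hasDerivAt_id (τ : ℂ)).const_mul μ).cexp
      simpa using this
    have h2 : HasDerivAt (fun z : ℂ => 6 * z * (R - z) / R ^ 3 / μ - 6 * (R - 2 * z) / R ^ 3 / μ ^ 2
        - 12 / R ^ 3 / μ ^ 3) (6 * (R - 2 * τ) / R ^ 3 / μ + 12 / R ^ 3 / μ ^ 2) (τ : ℂ) := by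
      have h3 : HasDerivAt (fun z : ℂ => 6 * z * (R - z)) (6 * (R - 2 * τ)) (τ : ℂ) := by
        have h4 := ((hasDerivAt_id (τ : ℂ)).const_mul 6).mul ((hasDerivAt_id (τ : ℂ)).const_sub (R : ℂ))
        refine h4.congr_deriv ?_
        simp only [id]
        ring
      have h5 : HasDerivAt (fun z : ℂ => 6 * (R - 2 * z)) (-12) (τ : ℂ) := by
        have h6 := ((((hasDerivAt_id (τ : ℂ)).const_mul 2).const_sub (R : ℂ))).const_mul 6
        refine h6.congr_deriv ?_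
        ring
      have h7 := (((h3.div_const (R ^ 3 : ℂ)).div_const μ).sub
        ((h5.div_const (R ^ 3 : ℂ)).div_const (μ ^ 2))).sub_const (12 / R ^ 3 / μ ^ 3)
      refine h7.congr_deriv ?_
      ring
    have h8 := h1.mul h2
    refine h8.congr_deriv ?_
    have he : -((2 * Real.pi * ξ * τ : ℝ) : ℂ) * I = μ * τ := by
      rw [hμ]
      push_cast
      ring
    rw [he]
    unfold kap
    push_cast
    field_simp
    ring
  have hi : IntervalIntegrable (fun τ : ℝ => ((kap R τ : ℝ) : ℂ) *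
      cexp (-((2 * Real.pi * ξ * τ : ℝ) : ℂ) * I)) volume 0 R := by
    have hk := g_kap_cont R
    exact Continuous.intervalIntegrable (by fun_prop) _ _
  unfold Kh
  rw [intervalIntegral.integral_eq_sub_of_hasDerivAt hder hi]
  simp only [Complex.ofReal_zero, mul_zero, Complex.exp_zero]
  field_simp
  ring

theorem g_Kh_far {R ξ : ℝ} (hR : 0 < R) (hξ : ξ ≠ 0) : ‖Kh R ξ‖ ≤ 1 / (R * |ξ|) ^ 2 := by
  set μ : ℂ := -((2 * Real.pi * ξ : ℝ) : ℂ) * I with hμ
  rw [g_Kh_formula hR hξ μ hμ]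
  have hx : 0 < |ξ| := abs_pos.mpr hξ
  have hpi := Real.pi_gt_three
  have hnμ : ‖μ‖ = 2 * Real.pi * |ξ| := by
    rw [hμ, norm_mul, norm_neg, Complex.norm_real, Complex.norm_I, mul_one, Real.norm_eq_abs,
      abs_mul, abs_of_pos (by positivity)]
  have hE : ‖cexp (μ * R)‖ = 1 := by
    have : μ * R = -((2 * Real.pi * ξ * R : ℝ) : ℂ) * I := by
      rw [hμ]
      push_cast
      ring
    rw [this, g_ne]
  have hE1 : ‖cexp (μ * R) + 1‖ ≤ 2 := by
    refine (norm_add_le _ _).trans ?_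
    rw [hE, norm_one]
    norm_num
  have hE2 : ‖cexp (μ * R) - 1‖ ≤ ‖μ‖ * R := by
    have h1 := Real.norm_exp_I_mul_ofReal_sub_one_le (x := -(2 * Real.pi * ξ * R))
    have h2 : μ * R = I * ((-(2 * Real.pi * ξ * R) : ℝ) : ℂ) := by
      rw [hμ]
      push_cast
      ring
    rw [h2]
    refine h1.trans ?_
    rw [norm_neg, Real.norm_eq_abs, abs_mul, abs_mul, abs_of_pos (show 0 < 2 * Real.pi by positivity),
      abs_of_pos hR, hnμ]
  have hy : 0 < ‖μ‖ := by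
    rw [hnμ]
    positivity
  have e1 : ‖6 * (cexp (μ * R) + 1) / (R ^ 2 * μ ^ 2)‖ ≤ 12 / (R ^ 2 * ‖μ‖ ^ 2) := by
    rw [norm_div, norm_mul, norm_mul, norm_pow, norm_pow, Complex.norm_real, Real.norm_eq_abs,
      abs_of_pos hR]
    apply div_le_div_of_nonneg_right _ (by positivity)
    have : ‖(6:ℂ)‖ = 6 := by norm_num
    rw [this]
    linarith
  have e2 : ‖12 * (cexp (μ * R) - 1) / (R ^ 3 * μ ^ 3)‖ ≤ 12 / (R ^ 2 * ‖μ‖ ^ 2) := by
    rw [norm_div, norm_mul, norm_mul, norm_pow, norm_pow, Complex.norm_real, Real.norm_eq_abs,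
      abs_of_pos hR]
    have : ‖(12:ℂ)‖ = 12 := by norm_num
    rw [this]
    have h3 : 12 / (R ^ 2 * ‖μ‖ ^ 2) = 12 * (‖μ‖ * R) / (R ^ 3 * ‖μ‖ ^ 3) := by
      field_simp
    rw [h3]
    apply div_le_div_of_nonneg_right _ (by positivity)
    linarith
  refine (norm_sub_le _ _).trans ((add_le_add e1 e2).trans ?_)
  rw [← add_div, hnμ]
  rw [div_le_div_iff₀ (by positivity) (by positivity)]
  have h4 : (R * |ξ|) ^ 2 * 24 ≤ (R * |ξ|) ^ 2 * (2 * Real.pi) ^ 2 := by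
    apply mul_le_mul_of_nonneg_left _ (by positivity)
    nlinarith
  nlinarith [h4]

theorem g_Kh_mul {R ξ : ℝ} (hR : 1 ≤ R) : |ξ| * ‖Kh R ξ‖ ≤ 1 := by
  have hR0 : 0 < R := by linarith
  by_cases h : |ξ| ≤ 1
  · calc |ξ| * ‖Kh R ξ‖ ≤ 1 * 1 := mul_le_mul h (g_Kh_le_one hR0 ξ) (norm_nonneg _) zero_le_one
      _ = 1 := one_mul 1
  · push Not at h
    have hξ : ξ ≠ 0 := by
      intro h0
      rw [h0, abs_zero] at h
      linarith
    have h1 := g_Kh_far hR0 hξ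
    have hx : 0 < |ξ| := by linarith
    calc |ξ| * ‖Kh R ξ‖ ≤ |ξ| * (1 / (R * |ξ|) ^ 2) := mul_le_mul_of_nonneg_left h1 hx.le
      _ ≤ 1 := by
        rw [mul_one_div, div_le_one (by positivity)]
        have h2 : |ξ| ≤ |ξ| ^ 2 := by nlinarith
        have h3 : |ξ| ^ 2 ≤ (R * |ξ|) ^ 2 := by
          apply pow_le_pow_left₀ hx.le
          nlinarith
        linarith

theorem g_Kh_cont (R : ℝ) : Continuous (Kh R) := by
  have hk := g_kap_cont R
  unfold Kh
  apply intervalIntegral.continuous_parametric_intervalIntegral_of_continuous'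
  simp only [Function.uncurry_def]
  fun_prop

theorem g_Kd_cont (R : ℝ) : Continuous (Kd R) := by
  have hk := g_kap_cont R
  unfold Kd
  apply intervalIntegral.continuous_parametric_intervalIntegral_of_continuous'
  simp only [Function.uncurry_def]
  fun_prop

/-- the phase -/
noncomputable def nu (α β q : ℝ) : ℝ := α * Real.exp (-q) + β * Real.exp q

/-- its derivative -/
noncomputable def n1 (α β q : ℝ) : ℝ := -(α * Real.exp (-q)) + β * Real.exp q

theorem g_nu_cont (α β : ℝ) : Continuous (nu α β) := by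
  unfold nu
  fun_prop

theorem g_n1_cont (α β : ℝ) : Continuous (n1 α β) := by
  unfold n1
  fun_prop

theorem g_exp_neg (q : ℝ) : HasDerivAt (fun q : ℝ => Real.exp (-q)) (-Real.exp (-q)) q := by
  have := (hasDerivAt_neg q).exp
  simpa using this

theorem g_nu_deriv (α β q : ℝ) : HasDerivAt (nu α β) (n1 α β q) q := by
  have := ((g_exp_neg q).const_mul α).add ((Real.hasDerivAt_exp q).const_mul β)
  refine this.congr_deriv ?_
  unfold n1
  ring

theorem g_n1_deriv (α β q : ℝ) : HasDerivAt (n1 α β) (nu α β q) q := by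
  have := ((g_exp_neg q).const_mul α).neg.add ((Real.hasDerivAt_exp q).const_mul β)
  refine this.congr_deriv ?_
  unfold nu
  ring

theorem g_n1_sq (α β q : ℝ) : (n1 α β q) ^ 2 = (nu α β q) ^ 2 - 4 * (α * β) := by
  unfold n1 nu
  have h : Real.exp (-q) * Real.exp q = 1 := by
    rw [← Real.exp_add]
    simp
  linear_combination (-4 * α * β) * h

/-- the smoothed inverse of `n1` -/
noncomputable def Ps (s x : ℝ) : ℝ := x ^ 3 / (x ^ 4 + s ^ 2)

noncomputable def Pd (s x y : ℝ) : ℝ := y * (x ^ 2 * (3 * s ^ 2 - x ^ 4)) / (x ^ 4 + s ^ 2) ^ 2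

theorem g_Ps_deriv {s : ℝ} (hs : 0 < s) (α β q : ℝ) : HasDerivAt (fun q => Ps s (n1 α β q))
    (Pd s (n1 α β q) (nu α β q)) q := by
  have hpos : (n1 α β q) ^ 4 + s ^ 2 ≠ 0 := by positivity
  have h := ((g_n1_deriv α β q).pow 3).div (((g_n1_deriv α β q).pow 4).add_const (s ^ 2)) hpos
  refine h.congr_deriv ?_
  unfold Pd
  simp only [Pi.pow_apply]
  push_cast
  field_simp
  ring

theorem g_am {s x : ℝ} (hs : 0 < s) : x ^ 2 / (x ^ 4 + s ^ 2) ≤ 1 / (2 * s) := by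
  rw [div_le_div_iff₀ (by positivity) (by positivity)]
  nlinarith [sq_nonneg (x ^ 2 - s)]

theorem g_Ps_le {s x : ℝ} (hs : 0 < s) : |Ps s x| ≤ 1 / (2 * s) + 1 := by
  have h1 := g_am (x := x) hs
  have h2 : x ^ 4 / (x ^ 4 + s ^ 2) ≤ 1 := by
    rw [div_le_one (by positivity)]
    nlinarith [sq_nonneg s]
  unfold Ps
  rw [abs_div, abs_of_pos (show 0 < x ^ 4 + s ^ 2 by positivity), abs_pow]
  have h3 : |x| ^ 3 ≤ x ^ 2 + x ^ 4 := by
    have h4 : x ^ 2 = |x| ^ 2 := (sq_abs x).symm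
    have h5 : x ^ 4 = |x| ^ 4 := by
      rw [← abs_pow]
      exact (abs_of_nonneg (by positivity)).symm
    rw [h4, h5]
    nlinarith [sq_nonneg (|x|), sq_nonneg (|x| * (|x| - 1)), abs_nonneg x]
  calc |x| ^ 3 / (x ^ 4 + s ^ 2) ≤ (x ^ 2 + x ^ 4) / (x ^ 4 + s ^ 2) :=
        div_le_div_of_nonneg_right h3 (by positivity)
    _ = x ^ 2 / (x ^ 4 + s ^ 2) + x ^ 4 / (x ^ 4 + s ^ 2) := add_div _ _ _
    _ ≤ 1 / (2 * s) + 1 := add_le_add h1 h2

theorem g_Pd_le {s x y : ℝ} (hs : 0 < s) : |Pd s x y| ≤ |y| * (3 / (2 * s)) := by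
  have h1 := g_am (x := x) hs
  unfold Pd
  rw [abs_div, abs_mul, abs_mul, abs_of_pos (show 0 < (x ^ 4 + s ^ 2) ^ 2 by positivity),
    abs_of_nonneg (sq_nonneg x), mul_div_assoc]
  apply mul_le_mul_of_nonneg_left _ (abs_nonneg y)
  have h2 : |3 * s ^ 2 - x ^ 4| ≤ 3 * (x ^ 4 + s ^ 2) := by
    rw [abs_le]
    constructor <;> nlinarith [sq_nonneg s, sq_nonneg (x ^ 2)]
  calc x ^ 2 * |3 * s ^ 2 - x ^ 4| / (x ^ 4 + s ^ 2) ^ 2
      ≤ x ^ 2 * (3 * (x ^ 4 + s ^ 2)) / (x ^ 4 + s ^ 2) ^ 2 := by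
        apply div_le_div_of_nonneg_right _ (by positivity)
        exact mul_le_mul_of_nonneg_left h2 (sq_nonneg x)
    _ = 3 * (x ^ 2 / (x ^ 4 + s ^ 2)) := by
        field_simp
    _ ≤ 3 * (1 / (2 * s)) := by linarith
    _ = 3 / (2 * s) := by ring

/-- the oscillatory integral -/
noncomputable def JJ (R Λ η α β a b : ℝ) : ℂ :=
  ∫ q in a..b, cexp (((Λ * nu α β q : ℝ) : ℂ) * I) * Kh R (η - nu α β q)

theorem g_J {R Λ s κ m η α β a b : ℝ} (hR : 1 ≤ R) (hΛ : 0 < Λ) (hs : 0 < s) (hκ : 0 < κ)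
    (hm : 0 < m) (hres : ∀ q, |η - nu α β q| ≤ κ → m ≤ (n1 α β q) ^ 2) :
    Λ * ‖JJ R Λ η α β a b‖ ≤ 2 * (1 / (2 * s) + 1) +
      (3 * (|η| + 1) / (2 * s) + 2 * Real.pi * R) * |b - a| +
      Λ * ((s ^ 2 / m ^ 2 + 1 / (R * κ) ^ 2) * |b - a|) := by
  have hR0 : 0 < R := by linarith
  have cK := g_Kh_cont R
  have cD := g_Kd_cont R
  have cν := g_nu_cont α β
  have c1 := g_n1_cont α β
  have cP : Continuous (fun q => Ps s (n1 α β q)) := by
    unfold Ps
    apply Continuous.div (by fun_prop) (by fun_prop)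
    intro q
    positivity
  have cPd : Continuous (fun q => Pd s (n1 α β q) (nu α β q)) := by
    unfold Pd
    apply Continuous.div (by fun_prop) (by fun_prop)
    intro q
    positivity
  have cW : Continuous (fun q => s ^ 2 / ((n1 α β q) ^ 4 + s ^ 2)) := by
    apply Continuous.div (by fun_prop) (by fun_prop)
    intro q
    positivity
  -- the pieces
  set e : ℝ → ℂ := fun q => cexp (((Λ * nu α β q : ℝ) : ℂ) * I) with he
  have ce : Continuous e := by
    rw [he]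
    fun_prop
  have ne : ∀ q, ‖e q‖ = 1 := fun q => Complex.norm_exp_ofReal_mul_I _
  set G : ℝ → ℂ := fun q => e q * ((Ps s (n1 α β q) : ℝ) : ℂ) * Kh R (η - nu α β q) with hG
  set E : ℝ → ℂ := fun q => -(e q * ((Pd s (n1 α β q) (nu α β q) : ℝ) : ℂ) * Kh R (η - nu α β q)) +
    e q * ((Ps s (n1 α β q) * n1 α β q : ℝ) : ℂ) * Kd R (η - nu α β q) with hE
  set W : ℝ → ℂ := fun q => e q * Kh R (η - nu α β q) *
    ((s ^ 2 / ((n1 α β q) ^ 4 + s ^ 2) : ℝ) : ℂ) with hW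
  set G' : ℝ → ℂ := fun q => e q * ((Λ * n1 α β q : ℝ) * I) * ((Ps s (n1 α β q) : ℝ) : ℂ) *
      Kh R (η - nu α β q) +
    e q * ((Pd s (n1 α β q) (nu α β q) : ℝ) : ℂ) * Kh R (η - nu α β q) -
    e q * ((Ps s (n1 α β q) * n1 α β q : ℝ) : ℂ) * Kd R (η - nu α β q) with hG'
  have dG : ∀ q, HasDerivAt G (G' q) q := by
    intro q
    have d1 : HasDerivAt e (e q * ((Λ * n1 α β q : ℝ) * I)) q := by
      have h1 : HasDerivAt (fun q : ℝ => ((Λ * nu α β q : ℝ) : ℂ) * I) ((Λ * n1 α β q : ℝ) * I) q :=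
        (((g_nu_deriv α β q).const_mul Λ).ofReal_comp).mul_const I
      exact h1.cexp
    have d2 : HasDerivAt (fun q => ((Ps s (n1 α β q) : ℝ) : ℂ))
        ((Pd s (n1 α β q) (nu α β q) : ℝ) : ℂ) q := (g_Ps_deriv hs α β q).ofReal_comp
    have d3 : HasDerivAt (fun q => Kh R (η - nu α β q))
        ((-(n1 α β q)) • Kd R (η - nu α β q)) q := by
      have h1 : HasDerivAt (fun q => η - nu α β q) (-(n1 α β q)) q := (g_nu_deriv α β q).const_sub η
      exact (g_Kh_deriv hR0 (η - nu α β q)).scomp q h1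
    refine ((d1.mul d2).mul d3).congr_deriv ?_
    simp only [hG', Complex.real_smul, Pi.mul_apply]
    push_cast
    ring
  have cG' : Continuous G' := by
    rw [hG']
    fun_prop
  have cE : Continuous E := by
    rw [hE]
    fun_prop
  have cWW : Continuous W := by
    rw [hW]
    fun_prop
  have key : ∀ q, ((Λ : ℝ) * I : ℂ) * (e q * Kh R (η - nu α β q)) = G' q + E q + (Λ : ℝ) * I * W q := by
    intro q
    have h1 : Ps s (n1 α β q) * n1 α β q + s ^ 2 / ((n1 α β q) ^ 4 + s ^ 2) = 1 := by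
      unfold Ps
      have hpos : (n1 α β q) ^ 4 + s ^ 2 ≠ 0 := by positivity
      field_simp
    have h2 : ((Ps s (n1 α β q) : ℝ) : ℂ) * ((n1 α β q : ℝ) : ℂ) +
        ((s ^ 2 / ((n1 α β q) ^ 4 + s ^ 2) : ℝ) : ℂ) = 1 := by
      rw [← Complex.ofReal_mul, ← Complex.ofReal_add, h1, Complex.ofReal_one]
    simp only [hG', hE, hW, Complex.ofReal_mul]
    linear_combination (-(Λ * I * e q * Kh R (η - nu α β q))) * h2
  have int : ((Λ : ℝ) * I : ℂ) * JJ R Λ η α β a b =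
      (G b - G a) + (∫ q in a..b, E q) + (Λ : ℝ) * I * ∫ q in a..b, W q := by
    unfold JJ
    rw [← intervalIntegral.integral_const_mul, ← intervalIntegral.integral_const_mul]
    rw [← intervalIntegral.integral_eq_sub_of_hasDerivAt (fun q _ => dG q)
      (cG'.intervalIntegrable _ _)]
    rw [← intervalIntegral.integral_add (cG'.intervalIntegrable _ _) (cE.intervalIntegrable _ _)]
    have i1 : IntervalIntegrable (fun q => G' q + E q) volume a b :=
      (cG'.add cE).intervalIntegrable _ _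
    have i2 : IntervalIntegrable (fun q => (Λ : ℝ) * I * W q) volume a b :=
      (cWW.const_mul _).intervalIntegrable _ _
    rw [← intervalIntegral.integral_add i1 i2]
    apply intervalIntegral.integral_congr
    intro q _
    exact key q
  -- bounds
  have bG : ∀ q, ‖G q‖ ≤ 1 / (2 * s) + 1 := by
    intro q
    simp only [hG]
    rw [norm_mul, norm_mul, ne, one_mul, Complex.norm_real, Real.norm_eq_abs]
    calc |Ps s (n1 α β q)| * ‖Kh R (η - nu α β q)‖ ≤ (1 / (2 * s) + 1) * 1 :=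
          mul_le_mul (g_Ps_le hs) (g_Kh_le_one hR0 _) (norm_nonneg _) (by positivity)
      _ = _ := mul_one _
  have bE : ∀ q, ‖E q‖ ≤ 3 * (|η| + 1) / (2 * s) + 2 * Real.pi * R := by
    intro q
    simp only [hE]
    refine (norm_add_le _ _).trans (add_le_add ?_ ?_)
    · rw [norm_neg, norm_mul, norm_mul, ne, one_mul, Complex.norm_real, Real.norm_eq_abs]
      have h1 : |nu α β q| * ‖Kh R (η - nu α β q)‖ ≤ |η| + 1 := by
        have h2 : |nu α β q| ≤ |η| + |η - nu α β q| := by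
          have h3 := abs_sub_abs_le_abs_sub (nu α β q) η
          rw [abs_sub_comm] at h3
          linarith
        calc |nu α β q| * ‖Kh R (η - nu α β q)‖
            ≤ (|η| + |η - nu α β q|) * ‖Kh R (η - nu α β q)‖ :=
              mul_le_mul_of_nonneg_right h2 (norm_nonneg _)
          _ = |η| * ‖Kh R (η - nu α β q)‖ + |η - nu α β q| * ‖Kh R (η - nu α β q)‖ := by ring
          _ ≤ |η| * 1 + 1 := add_le_add
              (mul_le_mul_of_nonneg_left (g_Kh_le_one hR0 _) (abs_nonneg _)) (g_Kh_mul hR)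
          _ = |η| + 1 := by ring
      calc |Pd s (n1 α β q) (nu α β q)| * ‖Kh R (η - nu α β q)‖
          ≤ (|nu α β q| * (3 / (2 * s))) * ‖Kh R (η - nu α β q)‖ :=
            mul_le_mul_of_nonneg_right (g_Pd_le hs) (norm_nonneg _)
        _ = (|nu α β q| * ‖Kh R (η - nu α β q)‖) * (3 / (2 * s)) := by ring
        _ ≤ (|η| + 1) * (3 / (2 * s)) := mul_le_mul_of_nonneg_right h1 (by positivity)
        _ = 3 * (|η| + 1) / (2 * s) := by ring
    · rw [norm_mul, norm_mul, ne, one_mul, Complex.norm_real, Real.norm_eq_abs]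
      have h1 : |Ps s (n1 α β q) * n1 α β q| ≤ 1 := by
        have h2 : Ps s (n1 α β q) * n1 α β q = (n1 α β q) ^ 4 / ((n1 α β q) ^ 4 + s ^ 2) := by
          unfold Ps
          ring
        rw [h2, abs_of_nonneg (by positivity), div_le_one (by positivity)]
        nlinarith [sq_nonneg s]
      calc |Ps s (n1 α β q) * n1 α β q| * ‖Kd R (η - nu α β q)‖ ≤ 1 * (2 * Real.pi * R) :=
            mul_le_mul h1 (g_Kd_le hR0 _) (norm_nonneg _) zero_le_one
        _ = _ := one_mul _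
  have bW : ∀ q, ‖W q‖ ≤ s ^ 2 / m ^ 2 + 1 / (R * κ) ^ 2 := by
    intro q
    simp only [hW]
    rw [norm_mul, norm_mul, ne, one_mul, Complex.norm_real, Real.norm_eq_abs,
      abs_of_nonneg (by positivity)]
    by_cases hq : |η - nu α β q| ≤ κ
    · have h1 := hres q hq
      have h2 : s ^ 2 / ((n1 α β q) ^ 4 + s ^ 2) ≤ s ^ 2 / m ^ 2 := by
        apply div_le_div_of_nonneg_left (by positivity) (by positivity)
        have h3 : m ^ 2 ≤ ((n1 α β q) ^ 2) ^ 2 := pow_le_pow_left₀ hm.le h1 2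
        nlinarith [sq_nonneg s]
      calc ‖Kh R (η - nu α β q)‖ * (s ^ 2 / ((n1 α β q) ^ 4 + s ^ 2)) ≤ 1 * (s ^ 2 / m ^ 2) :=
            mul_le_mul (g_Kh_le_one hR0 _) h2 (by positivity) zero_le_one
        _ ≤ _ := by
          rw [one_mul]
          have : 0 ≤ 1 / (R * κ) ^ 2 := by positivity
          linarith
    · push Not at hq
      have hne : η - nu α β q ≠ 0 := by
        intro h0
        rw [h0, abs_zero] at hq
        linarith
      have h1 := g_Kh_far hR0 hne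
      have h2 : 1 / (R * |η - nu α β q|) ^ 2 ≤ 1 / (R * κ) ^ 2 := by
        apply one_div_le_one_div_of_le (by positivity)
        apply pow_le_pow_left₀ (by positivity)
        exact mul_le_mul_of_nonneg_left hq.le hR0.le
      have h3 : s ^ 2 / ((n1 α β q) ^ 4 + s ^ 2) ≤ 1 := by
        rw [div_le_one (by positivity)]
        nlinarith [sq_nonneg ((n1 α β q) ^ 2)]
      calc ‖Kh R (η - nu α β q)‖ * (s ^ 2 / ((n1 α β q) ^ 4 + s ^ 2)) ≤ (1 / (R * κ) ^ 2) * 1 :=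
            mul_le_mul (h1.trans h2) h3 (by positivity) (by positivity)
        _ ≤ _ := by
          rw [mul_one]
          have : 0 ≤ s ^ 2 / m ^ 2 := by positivity
          linarith
  have nI : ‖((Λ : ℝ) * I : ℂ)‖ = Λ := by
    rw [norm_mul, Complex.norm_real, Complex.norm_I, mul_one, Real.norm_eq_abs, abs_of_pos hΛ]
  have fin : Λ * ‖JJ R Λ η α β a b‖ = ‖(G b - G a) + (∫ q in a..b, E q) +
      (Λ : ℝ) * I * ∫ q in a..b, W q‖ := by
    rw [← int, norm_mul, nI]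
  rw [fin]
  refine (norm_add_le _ _).trans (add_le_add ((norm_add_le _ _).trans (add_le_add ?_ ?_)) ?_)
  · refine (norm_sub_le _ _).trans ?_
    have h1 := bG b
    have h2 := bG a
    linarith
  · exact intervalIntegral.norm_integral_le_of_norm_le_const (fun q _ => bE q)
  · rw [norm_mul, nI]
    exact mul_le_mul_of_nonneg_left
      (intervalIntegral.norm_integral_le_of_norm_le_const (fun q _ => bW q)) hΛ.le

theorem g_av (R Λ η ν φ : ℝ) (g : ℝ → ℝ)
    (hg : ∀ τ, g τ = Real.cos (Λ * ν + 2 * Real.pi * τ * ν + φ)) :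
    av R η g = cexp ((φ : ℂ) * I) / 2 * (cexp (((Λ * ν : ℝ) : ℂ) * I) * Kh R (η - ν)) +
      cexp (-(φ : ℂ) * I) / 2 * (cexp (((Λ * (-ν) : ℝ) : ℂ) * I) * Kh R (η - (-ν))) := by
  have hk := g_kap_cont R
  unfold av Kh
  rw [← intervalIntegral.integral_const_mul, ← intervalIntegral.integral_const_mul,
    ← intervalIntegral.integral_const_mul, ← intervalIntegral.integral_const_mul]
  rw [← intervalIntegral.integral_add (Continuous.intervalIntegrable (by fun_prop) _ _)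
    (Continuous.intervalIntegrable (by fun_prop) _ _)]
  apply intervalIntegral.integral_congr
  intro τ _
  simp only [hg]
  rw [Complex.ofReal_mul (kap R τ), Complex.ofReal_cos, Complex.cos]
  have e1 : cexp (((Λ * ν + 2 * Real.pi * τ * ν + φ : ℝ) : ℂ) * I) *
      cexp (-((2 * Real.pi * η * τ : ℝ) : ℂ) * I) =
      cexp ((φ : ℂ) * I) * cexp (((Λ * ν : ℝ) : ℂ) * I) *
        cexp (-((2 * Real.pi * (η - ν) * τ : ℝ) : ℂ) * I) := by
    rw [← Complex.exp_add, ← Complex.exp_add, ← Complex.exp_add]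
    congr 1
    push_cast
    ring
  have e2 : cexp (-((Λ * ν + 2 * Real.pi * τ * ν + φ : ℝ) : ℂ) * I) *
      cexp (-((2 * Real.pi * η * τ : ℝ) : ℂ) * I) =
      cexp (-(φ : ℂ) * I) * cexp (((Λ * (-ν) : ℝ) : ℂ) * I) *
        cexp (-((2 * Real.pi * (η - (-ν)) * τ : ℝ) : ℂ) * I) := by
    rw [← Complex.exp_add, ← Complex.exp_add, ← Complex.exp_add]
    congr 1
    push_cast
    ring
  linear_combination ((kap R τ : ℝ) : ℂ) / 2 * e1 + ((kap R τ : ℝ) : ℂ) / 2 * e2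

theorem g_osc (T ρ η α β φ a b : ℝ) : osc T ρ η α β φ a b =
    cexp ((φ : ℂ) * I) / 2 * JJ (T ^ (1 / 3 : ℝ)) (2 * Real.pi * (ρ * T)) η α β a b +
    cexp (-(φ : ℂ) * I) / 2 * JJ (T ^ (1 / 3 : ℝ)) (2 * Real.pi * (ρ * T)) η (-α) (-β) a b := by
  have cK := g_Kh_cont (T ^ (1 / 3 : ℝ))
  have c1 := g_nu_cont α β
  have c2 := g_nu_cont (-α) (-β)
  unfold osc JJ
  rw [← intervalIntegral.integral_const_mul, ← intervalIntegral.integral_const_mul]
  rw [← intervalIntegral.integral_add (Continuous.intervalIntegrable (by fun_prop) _ _)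
    (Continuous.intervalIntegrable (by fun_prop) _ _)]
  apply intervalIntegral.integral_congr
  intro q _
  have h1 : nu (-α) (-β) q = -(nu α β q) := by
    unfold nu
    ring
  simp only [h1]
  apply g_av
  intro τ
  unfold nu
  congr 1
  ring

theorem g_osc_le (T ρ η α β φ a b C : ℝ)
    (h1 : ‖JJ (T ^ (1 / 3 : ℝ)) (2 * Real.pi * (ρ * T)) η α β a b‖ ≤ C)
    (h2 : ‖JJ (T ^ (1 / 3 : ℝ)) (2 * Real.pi * (ρ * T)) η (-α) (-β) a b‖ ≤ C) :
    ‖osc T ρ η α β φ a b‖ ≤ C := by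
  rw [g_osc]
  have n1 : ‖cexp ((φ : ℂ) * I) / 2‖ = 1 / 2 := by
    rw [norm_div, Complex.norm_exp_ofReal_mul_I]
    norm_num
  have n2 : ‖cexp (-(φ : ℂ) * I) / 2‖ = 1 / 2 := by
    rw [norm_div, g_ne]
    norm_num
  refine (norm_add_le _ _).trans ?_
  rw [norm_mul, norm_mul, n1, n2]
  linarith

theorem g_num {t L X Λ y D : ℝ} (ht : 1 ≤ t) (hL : 1 ≤ L) (hLt : 119 * L ≤ t ^ 9)
    (hΛ : t ^ 300 ≤ Λ) (hy0 : 0 ≤ y) (hy : y ≤ t ^ 3) (hD0 : 0 ≤ D) (hD : D ≤ 8 * L)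
    (hX : Λ * X ≤ 2 * (1 / (2 * (1 / t ^ 90)) + 1) +
      (3 * (y + 1) / (2 * (1 / t ^ 90)) + 2 * Real.pi * t ^ 100) * D +
      Λ * (((1 / t ^ 90) ^ 2 / (1 / (2 * t ^ 3)) ^ 2 + 1 / (t ^ 100 * (1 / t ^ 9)) ^ 2) * D)) :
    X ≤ 1 / t ^ 165 := by
  have t0 : 0 < t := by linarith
  have hΛ0 : 0 < Λ := lt_of_lt_of_le (by positivity) hΛ
  have p (a b : ℕ) (h : a ≤ b) : t ^ a ≤ t ^ b := pow_le_pow_right₀ ht h
  have a1 : 1 / (2 * (1 / t ^ 90)) = t ^ 90 / 2 := by
    field_simp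
  have a2 : 3 * (y + 1) / (2 * (1 / t ^ 90)) ≤ 3 * t ^ 100 := by
    have h1 : 3 * (y + 1) / (2 * (1 / t ^ 90)) = 3 * (y + 1) * t ^ 90 / 2 := by
      field_simp
    rw [h1]
    have h2 : y + 1 ≤ 2 * t ^ 3 := by
      have := one_le_pow₀ ht (n := 3)
      linarith
    have h3 : (y + 1) * t ^ 90 ≤ 2 * t ^ 3 * t ^ 90 := mul_le_mul_of_nonneg_right h2 (by positivity)
    have h4 : t ^ 3 * t ^ 90 ≤ t ^ 100 := by
      rw [← pow_add]
      exact p _ _ (by norm_num)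
    nlinarith
  have a3 : (1 / t ^ 90) ^ 2 / (1 / (2 * t ^ 3)) ^ 2 = 4 / t ^ 174 := by
    field_simp
    ring
  have a4 : 1 / (t ^ 100 * (1 / t ^ 9)) ^ 2 ≤ 1 / t ^ 174 := by
    apply one_div_le_one_div_of_le (by positivity)
    have : (t ^ 100 * (1 / t ^ 9)) ^ 2 = t ^ 182 := by
      field_simp
    rw [this]
    exact p _ _ (by norm_num)
  have b1 : 2 * (1 / (2 * (1 / t ^ 90)) + 1) ≤ 3 * t ^ 100 := by
    rw [a1]
    have h1 := p 90 100 (by norm_num)
    have h2 := one_le_pow₀ ht (n := 100)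
    linarith
  have hpi : 2 * Real.pi ≤ 6.3 := by
    have := Real.pi_lt_d2
    linarith
  have b2 : (3 * (y + 1) / (2 * (1 / t ^ 90)) + 2 * Real.pi * t ^ 100) * D ≤
      9.3 * t ^ 100 * (8 * L) := by
    have h1 : 3 * (y + 1) / (2 * (1 / t ^ 90)) + 2 * Real.pi * t ^ 100 ≤ 9.3 * t ^ 100 := by
      have := mul_le_mul_of_nonneg_right hpi (show 0 ≤ t ^ 100 by positivity)
      linarith
    exact mul_le_mul h1 hD hD0 (by positivity)
  have b3 : ((1 / t ^ 90) ^ 2 / (1 / (2 * t ^ 3)) ^ 2 + 1 / (t ^ 100 * (1 / t ^ 9)) ^ 2) * D ≤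
      5 / t ^ 174 * (8 * L) := by
    have h1 : (1 / t ^ 90) ^ 2 / (1 / (2 * t ^ 3)) ^ 2 + 1 / (t ^ 100 * (1 / t ^ 9)) ^ 2 ≤
        5 / t ^ 174 := by
      rw [a3]
      calc 4 / t ^ 174 + 1 / (t ^ 100 * (1 / t ^ 9)) ^ 2 ≤ 4 / t ^ 174 + 1 / t ^ 174 := by linarith
        _ = 5 / t ^ 174 := by ring
    exact mul_le_mul h1 hD hD0 (by positivity)
  have c1 : Λ * X ≤ 79 * L * t ^ 100 + Λ * (40 * L / t ^ 174) := by
    have h1 : 3 * t ^ 100 ≤ 3 * L * t ^ 100 := by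
      have : 0 ≤ t ^ 100 := by positivity
      nlinarith
    have h2 := mul_le_mul_of_nonneg_left b3 hΛ0.le
    have h3 : Λ * (5 / t ^ 174 * (8 * L)) = Λ * (40 * L / t ^ 174) := by ring
    have h4 : 0 ≤ L * t ^ 100 := by positivity
    rw [h3] at h2
    nlinarith
  have c2 : 79 * L * t ^ 100 ≤ Λ * (79 * L / t ^ 174) := by
    have h1 : t ^ 100 ≤ Λ * (1 / t ^ 174) := by
      calc t ^ 100 ≤ t ^ 126 := p _ _ (by norm_num)
        _ = t ^ 300 * (1 / t ^ 174) := by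
          field_simp
        _ ≤ Λ * (1 / t ^ 174) := mul_le_mul_of_nonneg_right hΛ (by positivity)
    have h2 := mul_le_mul_of_nonneg_left h1 (show 0 ≤ 79 * L by positivity)
    calc 79 * L * t ^ 100 ≤ 79 * L * (Λ * (1 / t ^ 174)) := h2
      _ = Λ * (79 * L / t ^ 174) := by ring
  have c3 : Λ * X ≤ Λ * (119 * L / t ^ 174) := by
    calc Λ * X ≤ Λ * (79 * L / t ^ 174) + Λ * (40 * L / t ^ 174) := by linarith
      _ = Λ * (119 * L / t ^ 174) := by ring
  have c4 : X ≤ 119 * L / t ^ 174 := le_of_mul_le_mul_left c3 hΛ0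
  refine c4.trans ?_
  calc 119 * L / t ^ 174 ≤ t ^ 9 / t ^ 174 := div_le_div_of_nonneg_right hLt (by positivity)
    _ = 1 / t ^ 165 := by
      field_simp

theorem g_JJ {t ρ η α β a b : ℝ} (ht : 2 ≤ t) (hL : 1 ≤ Real.log (t ^ 300))
    (hLt : 119 * Real.log (t ^ 300) ≤ t ^ 9) (hρ : 1 ≤ ρ) (hη : |η| ≤ t ^ 3)
    (hres : 1 / t ^ 3 ≤ |η ^ 2 - 4 * (α * β)|) (ha : |a| ≤ 4 * Real.log (t ^ 300))
    (hb : |b| ≤ 4 * Real.log (t ^ 300)) :
    ‖JJ (t ^ 100) (2 * Real.pi * (ρ * t ^ 300)) η α β a b‖ ≤ 1 / t ^ 165 := by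
  have ht1 : 1 ≤ t := by linarith
  have t0 : 0 < t := by linarith
  have hΛ : t ^ 300 ≤ 2 * Real.pi * (ρ * t ^ 300) := by
    have hpi := Real.pi_gt_three
    have h1 : 0 < t ^ 300 := by positivity
    have h2 : t ^ 300 ≤ ρ * t ^ 300 := by nlinarith
    nlinarith
  have hD : |b - a| ≤ 8 * Real.log (t ^ 300) := by
    have := abs_sub b a
    linarith
  have h := g_J (R := t ^ 100) (Λ := 2 * Real.pi * (ρ * t ^ 300)) (s := 1 / t ^ 90) (κ := 1 / t ^ 9)
    (m := 1 / (2 * t ^ 3)) (η := η) (α := α) (β := β) (a := a) (b := b) (one_le_pow₀ ht1)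
    (lt_of_lt_of_le (by positivity) hΛ) (by positivity) (by positivity) (by positivity) (by
      intro q hq
      have h1 := g_n1_sq α β q
      have h3 : |nu α β q ^ 2 - η ^ 2| ≤ 1 / (2 * t ^ 3) := by
        have h4 : nu α β q ^ 2 - η ^ 2 = (η - nu α β q) * ((η - nu α β q) - 2 * η) := by ring
        rw [h4, abs_mul]
        have h5 : |(η - nu α β q) - 2 * η| ≤ 3 * t ^ 3 := by
          have h6 := abs_sub (η - nu α β q) (2 * η)
          rw [abs_mul, abs_of_pos (show (0:ℝ) < 2 by norm_num)] at h6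
          have h7 : 1 / t ^ 9 ≤ t ^ 3 := by
            rw [div_le_iff₀ (by positivity), ← pow_add]
            exact one_le_pow₀ ht1
          linarith
        calc |η - nu α β q| * |(η - nu α β q) - 2 * η| ≤ (1 / t ^ 9) * (3 * t ^ 3) :=
              mul_le_mul hq h5 (abs_nonneg _) (by positivity)
          _ = 3 / t ^ 6 := by
            field_simp
          _ ≤ 1 / (2 * t ^ 3) := by
            rw [div_le_div_iff₀ (by positivity) (by positivity)]
            have h8 : (2:ℝ) ^ 3 ≤ t ^ 3 := pow_le_pow_left₀ (by norm_num) ht 3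
            nlinarith [show 0 < t ^ 3 by positivity]
      have h9 : |η ^ 2 - 4 * (α * β)| ≤ |n1 α β q ^ 2| + |nu α β q ^ 2 - η ^ 2| := by
        have h10 : η ^ 2 - 4 * (α * β) = n1 α β q ^ 2 - (nu α β q ^ 2 - η ^ 2) := by
          rw [h1]
          ring
        rw [h10]
        exact abs_sub _ _
      rw [abs_of_nonneg (sq_nonneg (n1 α β q))] at h9
      have h11 : 1 / t ^ 3 = 1 / (2 * t ^ 3) + 1 / (2 * t ^ 3) := by
        field_simp
        norm_num
      linarith)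
  exact g_num ht1 hL hLt hΛ (abs_nonneg η) hη (abs_nonneg _) hD h

end Pool.Agent.E7.GG

namespace Pool.Agent.E7

open GG in
theorem stmtG : StmtG := by
  have hlog : ∀ᶠ T : ℝ in atTop, 119 * Real.log T ≤ T ^ (3 / 100 : ℝ) := by
    have h := isLittleO_log_rpow_atTop (show (0:ℝ) < 3 / 100 by norm_num)
    have h2 := h.bound (show (0:ℝ) < 1 / 119 by norm_num)
    filter_upwards [h2, eventually_ge_atTop 1] with T hT h1
    rw [Real.norm_eq_abs, Real.norm_eq_abs, abs_of_nonneg (Real.log_nonneg h1),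
      abs_of_nonneg (by positivity)] at hT
    linarith
  obtain ⟨T1, hT1⟩ := eventually_atTop.mp hlog
  refine ⟨max T1 (2 ^ 300), fun T hT ρ hρ _ η _ hη α β _ _ hres φ a b ha hb => ?_⟩
  have hTa : T1 ≤ T := le_trans (le_max_left _ _) hT
  have hTb : (2:ℝ) ^ 300 ≤ T := le_trans (le_max_right _ _) hT
  have hT0 : 0 < T := lt_of_lt_of_le (by positivity) hTb
  have hl := hT1 T hTa
  obtain ⟨t, ht0, rfl⟩ : ∃ t : ℝ, 0 < t ∧ t ^ 300 = T :=
    ⟨T ^ (1 / 300 : ℝ), by positivity, by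
      rw [← Real.rpow_natCast, ← Real.rpow_mul hT0.le]
      norm_num⟩
  have ht : 2 ≤ t := by
    by_contra h
    push Not at h
    exact absurd (pow_lt_pow_left₀ h ht0.le (show 300 ≠ 0 by norm_num)) (not_lt.mpr hTb)
  have e (x : ℝ) (n : ℕ) (h : 300 * x = n) : (t ^ 300) ^ x = t ^ n := by
    rw [← Real.rpow_natCast t 300, ← Real.rpow_mul ht0.le, ← Real.rpow_natCast t n]
    congr 1
  have e' (x : ℝ) (n : ℕ) (h : 300 * x = n) : (t ^ 300) ^ (-x) = 1 / t ^ n := by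
    rw [Real.rpow_neg (by positivity), e x n h, one_div]
  have f1 := e (1 / 3) 100 (by norm_num)
  have f2 := e (1 / 100) 3 (by norm_num)
  have f3 := e' (1 / 100) 3 (by norm_num)
  have f4 := e' (11 / 20) 165 (by norm_num)
  have f5 := e (3 / 100) 9 (by norm_num)
  rw [f2] at hη
  rw [f3] at hres
  rw [f5] at hl
  have hL : 1 ≤ Real.log (t ^ 300) := by
    rw [Real.le_log_iff_exp_le (by positivity)]
    have h1 := Real.exp_one_lt_d9
    have h2 : t ^ 2 ≤ t ^ 300 := pow_le_pow_right₀ (by linarith) (by norm_num)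
    have h3 : 4 ≤ t ^ 2 := by nlinarith
    clear hTb hT
    linarith
  rw [f4]
  apply g_osc_le
  · rw [f1]
    exact g_JJ ht hL hl hρ hη hres ha hb
  · rw [f1]
    refine g_JJ ht hL hl hρ hη ?_ ha hb
    have : (-α) * (-β) = α * β := by ring
    rw [this]
    exact hres

end Pool.Agent.E7
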